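import Mathlib
import Pool.Agent.V11324.EdgeCount

/-!
# MP_25bd62_pr : the expected longest path after the `(1,1)` edge-removal process is `Θ(log n)`
-/

open Finset Filter Topology

namespace Pool.Agent.Results.MP_25bd62_pr.LogLength

open Pool.Agent.V11324.ER

variable {n : ℕ}

/-- Number of orderings. -/
noncomputable def T (n : ℕ) : ℝ := (Fintype.card (Order n) : ℝ)

lemma T_pos (n : ℕ) : 0 < T n := by
  unfold T
  have : 0 < Fintype.card (Order n) := by
    rw [Fintype.card_pos_iff]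
    exact ⟨Fintype.equivFin _⟩
  exact_mod_cast this

lemma hockey (s : ℕ) : ∑ r ∈ range s, (((r + 3).choose 3 : ℕ) : ℝ) = (((s + 3).choose 4 : ℕ) : ℝ) := by
  induction s with
  | zero => simp
  | succ s ih =>
    rw [sum_range_succ, ih, show s + 1 + 3 = (s + 3) + 1 by ring, Nat.choose_succ_succ' (s + 3) 3]
    push_cast
    ring

/-- Number of orderings with a long candidate path in `[0, m]`. -/
lemma U_bound {m : ℕ} (hm : 2 * m ≤ n) (hn : 3 ≤ n) (k : ℕ) :
    cnt n (fun σ => ∃ v : ℕ → Fin n, (v k : ℕ) ≤ m ∧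
      ∀ i < k, ∃ h : v i < v (i + 1), Cand σ ⟨(v i, v (i + 1)), h⟩) ≤
      T n * (16 * (n : ℝ) ^ 4 / 2 ^ k) := by
  classical
  have h1 := RR_le hm (univ : Finset (Fin n)) 2 (by norm_num)
    (fun s => (((s + 3).choose 3 : ℕ) : ℝ)) (fun s => by positivity)
    (fun s _ => by
      have : 1 ≤ ((s : ℕ) + 3).choose 3 := Nat.choose_pos (by omega)
      exact_mod_cast this)
    (fun s hs => by
      rw [hockey]
      have h4 : (((s + 3).choose 4 : ℕ) : ℝ) * 4 = (((s + 3).choose 3 : ℕ) : ℝ) * s := by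
        have := Nat.choose_succ_right_eq (s + 3) 3
        rw [show s + 3 - 3 = s by omega] at this
        exact_mod_cast this
      have hs' : (0 : ℝ) < s := by exact_mod_cast hs
      have : (((s + 3).choose 4 : ℕ) : ℝ) = (((s + 3).choose 3 : ℕ) : ℝ) * s / 4 := by linarith
      rw [this]
      apply le_of_eq
      field_simp
      ring)
  have h2 : cnt n (fun σ => ∃ v : ℕ → Fin n, (v k : ℕ) ≤ m ∧
      ∀ i < k, ∃ h : v i < v (i + 1), Cand σ ⟨(v i, v (i + 1)), h⟩) ≤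
      ∑ s ∈ univ.filter (fun s : Fin n => (s : ℕ) ≤ m), RR m univ k s := by
    refine le_trans (cnt_mono ?_) ((cnt_exists (univ.filter (fun s : Fin n => (s : ℕ) ≤ m))
      (fun s σ => ∃ v : ℕ → Fin n, v 0 ∈ (univ : Finset (Fin n)) ∧ v k = s ∧
      ∀ i < k, ∃ h : v i < v (i + 1), Cand σ ⟨(v i, v (i + 1)), h⟩)).trans ?_)
    · rintro σ ⟨v, hvk, hv⟩
      exact ⟨v k, by simpa using hvk, v, mem_univ _, rfl, hv⟩
    · exact sum_le_sum fun s _ => cnt_path_le univ k s
  refine h2.trans ?_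
  have hT := T_pos n
  have h3 : ∀ s ∈ univ.filter (fun s : Fin n => (s : ℕ) ≤ m), RR m univ k s ≤
      T n * ((2 * (n : ℝ)) ^ 3 / 2 ^ k) := by
    intro s hs
    simp only [mem_filter, mem_univ, true_and] at hs
    have h4 := h1 k s hs
    have h5 : (((s : ℕ) + 3).choose 3 : ℝ) ≤ (2 * (n : ℝ)) ^ 3 := by
      have h6 : ((s : ℕ) + 3).choose 3 ≤ (2 * n) ^ 3 := by
        refine (Nat.choose_le_pow _ 3).trans ?_
        exact Nat.pow_le_pow_left (by have := s.2; omega) 3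
      exact_mod_cast h6
    have h6 : (2 : ℝ) ^ k * RR m univ k s ≤ T n * (2 * (n : ℝ)) ^ 3 :=
      h4.trans (mul_le_mul_of_nonneg_left h5 hT.le)
    rw [← mul_div_assoc, le_div_iff₀ (by positivity), mul_comm]
    exact h6
  refine (sum_le_card_nsmul _ _ _ h3).trans ?_
  rw [nsmul_eq_mul]
  have h7 : ((univ.filter (fun s : Fin n => (s : ℕ) ≤ m)).card : ℝ) ≤ n := by
    have := card_filter_le (univ : Finset (Fin n)) (fun s : Fin n => (s : ℕ) ≤ m)
    rw [card_univ, Fintype.card_fin] at this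
    exact_mod_cast this
  have h8 : (0 : ℝ) ≤ T n * ((2 * (n : ℝ)) ^ 3 / 2 ^ k) := by positivity
  calc _ ≤ (n : ℝ) * (T n * ((2 * (n : ℝ)) ^ 3 / 2 ^ k)) := mul_le_mul_of_nonneg_right h7 h8
    _ = T n * (8 * (n : ℝ) ^ 4 / 2 ^ k) := by ring
    _ ≤ _ := by gcongr; norm_num

/-- Reflection of edges. -/
def rho (n : ℕ) : Edge n ≃ Edge n where
  toFun e := ⟨(Fin.rev e.1.2, Fin.rev e.1.1), Fin.rev_lt_rev.2 e.2⟩
  invFun e := ⟨(Fin.rev e.1.2, Fin.rev e.1.1), Fin.rev_lt_rev.2 e.2⟩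
  left_inv e := by
    apply Subtype.ext
    simp
  right_inv e := by
    apply Subtype.ext
    simp

lemma rho_rho (e : Edge n) : rho n (rho n e) = e := (rho n).left_inv e

lemma cand_rho {σ : Order n} {e : Edge n} (h : Cand σ e) : Cand ((rho n).trans σ) (rho n e) := by
  rcases h with h | h
  · right
    intro f hf
    simp only [Equiv.trans_apply, rho_rho]
    apply h
    have : (rho n f).1.2 = Fin.rev f.1.1 := rfl
    rw [this, hf]
    exact Fin.rev_rev _
  · left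
    intro f hf
    simp only [Equiv.trans_apply, rho_rho]
    apply h
    have : (rho n f).1.1 = Fin.rev f.1.2 := rfl
    rw [this, hf]
    exact Fin.rev_rev _

lemma cnt_rho (p : Order n → Prop) : cnt n (fun σ => p ((rho n).trans σ)) ≤ cnt n p := by
  classical
  rw [cnt_eq, cnt_eq]
  have : (univ.filter fun σ => p ((rho n).trans σ)).card ≤ (univ.filter p).card := by
    refine card_le_card_of_injOn (fun σ => (rho n).trans σ) ?_ ?_
    · intro σ hσ
      simpa using hσ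
    · intro σ _ τ _ h
      have h2 : (rho n).trans σ = (rho n).trans τ := h
      ext f
      have h3 := congrArg (fun ρ : Order n => ρ (rho n f)) h2
      simp only [Equiv.trans_apply, rho_rho] at h3
      rw [h3]
  exact_mod_cast this

lemma U'_bound {m : ℕ} (hm : n ≤ 2 * m + 4) (hmn : m + 2 ≤ n) (hn : 3 ≤ n) (k : ℕ) :
    cnt n (fun σ => ∃ v : ℕ → Fin n, m < (v 0 : ℕ) ∧
      ∀ i < k, ∃ h : v i < v (i + 1), Cand σ ⟨(v i, v (i + 1)), h⟩) ≤
      T n * (16 * (n : ℝ) ^ 4 / 2 ^ k) := by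
  refine le_trans ?_ (U_bound (m := n - 2 - m) (by omega) hn k)
  refine le_trans (cnt_mono ?_) (cnt_rho _)
  rintro σ ⟨v, hv0, hv⟩
  refine ⟨fun i => Fin.rev (v (k - i)), ?_, ?_⟩
  · simp only [Nat.sub_self, Fin.val_rev]
    omega
  · intro i hi
    obtain ⟨h, hc⟩ := hv (k - (i + 1)) (by omega)
    have e1 : k - (i + 1) + 1 = k - i := by omega
    have hc' := cand_rho hc
    have hval : (rho n ⟨(v (k - (i + 1)), v (k - (i + 1) + 1)), h⟩ : Edge n).1 =
        (Fin.rev (v (k - i)), Fin.rev (v (k - (i + 1)))) := by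
      simp only [rho, Equiv.coe_fn_mk]
      rw [e1]
    have hlt : Fin.rev (v (k - i)) < Fin.rev (v (k - (i + 1))) := by
      rw [Fin.rev_lt_rev, ← e1]
      exact h
    refine ⟨hlt, ?_⟩
    have : (⟨(Fin.rev (v (k - i)), Fin.rev (v (k - (i + 1)))), hlt⟩ : Edge n) =
        rho n ⟨(v (k - (i + 1)), v (k - (i + 1) + 1)), h⟩ := Subtype.ext hval.symm
    rw [this]
    exact hc'

/-- The set in the definition of `maxLen`. -/
def lenSet (H : Finset (Edge n)) : Set ℕ := {k : ℕ | ∃ v : ℕ → Fin n, ∀ i < k,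
  ∃ h : v i < v (i + 1), (⟨(v i, v (i + 1)), h⟩ : Edge n) ∈ H}

lemma len_lt {H : Finset (Edge n)} {k : ℕ} (hk : k ∈ lenSet H) : k < n := by
  obtain ⟨v, hv⟩ := hk
  have : ∀ i ≤ k, i ≤ (v i : ℕ) := by
    intro i
    induction i with
    | zero => intro _; exact Nat.zero_le _
    | succ i ih =>
      intro hi
      have h1 := ih (by omega)
      obtain ⟨h, -⟩ := hv i (by omega)
      have h2 : (v i : ℕ) < v (i + 1) := h
      omega
  exact (this k le_rfl).trans_lt (v k).2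

lemma maxLen_eq (H : Finset (Edge n)) : maxLen H = sSup (lenSet H) := rfl

lemma len_bdd (H : Finset (Edge n)) : BddAbove (lenSet H) := ⟨n, fun _ hk => (len_lt hk).le⟩

lemma le_maxLen {H : Finset (Edge n)} {k : ℕ} (hk : k ∈ lenSet H) : k ≤ maxLen H :=
  le_csSup (len_bdd H) hk

lemma maxLen_mem (hn : 0 < n) (H : Finset (Edge n)) : maxLen H ∈ lenSet H := by
  refine Nat.sSup_mem ⟨0, fun _ => ⟨0, hn⟩, by simp⟩ (len_bdd H)

lemma maxLen_le (hn : 0 < n) (H : Finset (Edge n)) : maxLen H ≤ n := (len_lt (maxLen_mem hn H)).le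

lemma upper (hn : 3 ≤ n) (k : ℕ) : expLen n ≤ 2 * k + 32 * (n : ℝ) ^ 5 / 2 ^ k := by
  classical
  set m := n / 2 with hm
  have hT := T_pos n
  set Q : Order n → Prop := fun σ => 2 * k ≤ maxLen (output σ) with hQ
  have hcnt : cnt n Q ≤ T n * (32 * (n : ℝ) ^ 4 / 2 ^ k) := by
    have h1 := U_bound (m := m) (by omega) hn k
    have h2 := U'_bound (m := m) (by omega) (by omega) hn k
    have h3 := cnt_or (n := n) (fun σ => ∃ v : ℕ → Fin n, (v k : ℕ) ≤ m ∧
      ∀ i < k, ∃ h : v i < v (i + 1), Cand σ ⟨(v i, v (i + 1)), h⟩)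
      (fun σ => ∃ v : ℕ → Fin n, m < (v 0 : ℕ) ∧
      ∀ i < k, ∃ h : v i < v (i + 1), Cand σ ⟨(v i, v (i + 1)), h⟩)
    have h4 : cnt n Q ≤ cnt n (fun σ => (∃ v : ℕ → Fin n, (v k : ℕ) ≤ m ∧
      ∀ i < k, ∃ h : v i < v (i + 1), Cand σ ⟨(v i, v (i + 1)), h⟩) ∨
      (∃ v : ℕ → Fin n, m < (v 0 : ℕ) ∧
      ∀ i < k, ∃ h : v i < v (i + 1), Cand σ ⟨(v i, v (i + 1)), h⟩)) := by
      refine cnt_mono fun σ hσ => ?_
      obtain ⟨v, hv⟩ := maxLen_mem (by omega) (output σ)
      have hσ' : 2 * k ≤ maxLen (output σ) := hσ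
      by_cases hvk : (v k : ℕ) ≤ m
      · left
        refine ⟨v, hvk, fun i hi => ?_⟩
        obtain ⟨h, he⟩ := hv i (by omega)
        exact ⟨h, output_cand σ _ he⟩
      · right
        refine ⟨fun i => v (k + i), by simpa using hvk, fun i hi => ?_⟩
        obtain ⟨h, he⟩ := hv (k + i) (by omega)
        exact ⟨h, output_cand σ _ he⟩
    have h5 : T n * (32 * (n : ℝ) ^ 4 / 2 ^ k) = T n * (16 * (n : ℝ) ^ 4 / 2 ^ k) +
      T n * (16 * (n : ℝ) ^ 4 / 2 ^ k) := by ring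
    rw [h5]
    linarith
  have hpt : ∀ σ : Order n, (maxLen (output σ) : ℝ) ≤ 2 * k + n * (if Q σ then 1 else 0) := by
    intro σ
    split_ifs with h
    · have : (maxLen (output σ) : ℝ) ≤ n := by exact_mod_cast maxLen_le (by omega) _
      have hk : (0 : ℝ) ≤ 2 * k := by positivity
      linarith
    · have h2 : maxLen (output σ) ≤ 2 * k := by
        have : ¬ (2 * k ≤ maxLen (output σ)) := h
        omega
      have : (maxLen (output σ) : ℝ) ≤ 2 * k := by exact_mod_cast h2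
      linarith
  change (∑ σ : Order n, (maxLen (output σ) : ℝ)) / T n ≤ _
  rw [div_le_iff₀ hT]
  calc ∑ σ : Order n, (maxLen (output σ) : ℝ)
      ≤ ∑ σ : Order n, ((2 : ℝ) * k + n * (if Q σ then 1 else 0)) := sum_le_sum fun σ _ => hpt σ
    _ = T n * (2 * k) + n * cnt n Q := by
        rw [sum_add_distrib, sum_const, card_univ, nsmul_eq_mul, ← mul_sum, sum_boole, cnt_eq]
        rfl
    _ ≤ T n * (2 * k) + n * (T n * (32 * (n : ℝ) ^ 4 / 2 ^ k)) := by
        gcongr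
    _ = (2 * k + 32 * (n : ℝ) ^ 5 / 2 ^ k) * T n := by ring

lemma sqrt_sum (s : ℕ) : ∑ r ∈ range s, 1 / Real.sqrt ((r : ℝ) + 1) ≤ 2 * Real.sqrt s := by
  induction s with
  | zero => simp
  | succ s ih =>
    rw [sum_range_succ]
    push_cast
    have h1 : 0 < Real.sqrt ((s : ℝ) + 1) := Real.sqrt_pos.2 (by positivity)
    have h2 : 0 ≤ Real.sqrt (s : ℝ) := Real.sqrt_nonneg _
    have h3 : Real.sqrt ((s : ℝ) + 1) ^ 2 = s + 1 := Real.sq_sqrt (by positivity)
    have h4 : Real.sqrt (s : ℝ) ^ 2 = s := Real.sq_sqrt (by positivity)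
    have h5 : 1 / Real.sqrt ((s : ℝ) + 1) ≤ 2 * Real.sqrt ((s : ℝ) + 1) - 2 * Real.sqrt s := by
      rw [div_le_iff₀ h1]
      nlinarith [sq_nonneg (Real.sqrt ((s : ℝ) + 1) - Real.sqrt s)]
    linarith

/-- Number of orderings with a short path to the vertex `m`. -/
lemma short_bound {m : ℕ} (hm : 2 * m ≤ n) (hmn : m < n) (k : ℕ) :
    cnt n (fun σ => ∃ j < k, ∃ v : ℕ → Fin n, v 0 = ⟨0, by omega⟩ ∧ v j = ⟨m, hmn⟩ ∧
      ∀ i < j, ∃ h : v i < v (i + 1), Cand σ ⟨(v i, v (i + 1)), h⟩) ≤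
      T n * (8 ^ k / Real.sqrt ((m : ℝ) + 1)) := by
  classical
  set X : Finset (Fin n) := {⟨0, by omega⟩} with hX
  have h1 := RR_le hm X (1 / 8) (by norm_num) (fun s => 1 / Real.sqrt ((s : ℝ) + 1))
    (fun s => by positivity)
    (fun s hs => by
      rw [hX, mem_singleton] at hs
      simp [hs])
    (fun s hs => by
      have hs' : (1 : ℝ) ≤ s := by exact_mod_cast hs
      have h2 := sqrt_sum s
      have h3 : 0 < Real.sqrt (s : ℝ) := Real.sqrt_pos.2 (by linarith)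
      have h4 : 0 < Real.sqrt ((s : ℝ) + 1) := Real.sqrt_pos.2 (by linarith)
      have h5 : Real.sqrt (s : ℝ) ^ 2 = s := Real.sq_sqrt (by linarith)
      have h6 : Real.sqrt ((s : ℝ) + 1) ≤ 2 * Real.sqrt s := by
        rw [show (2 : ℝ) * Real.sqrt s = Real.sqrt (4 * s) by
          rw [Real.sqrt_mul (by norm_num), show (4 : ℝ) = 2 ^ 2 by norm_num,
            Real.sqrt_sq (by norm_num)]]
        exact Real.sqrt_le_sqrt (by linarith)
      calc (1 / 8 : ℝ) * (2 / (s : ℝ)) * ∑ r ∈ range s, 1 / Real.sqrt ((r : ℝ) + 1)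
          ≤ (1 / 8 : ℝ) * (2 / (s : ℝ)) * (2 * Real.sqrt s) := by gcongr
        _ = 1 / (2 * Real.sqrt s) := by
            rw [eq_div_iff (by positivity)]
            rw [show (1 / 8 : ℝ) * (2 / (s : ℝ)) * (2 * Real.sqrt s) * (2 * Real.sqrt s) =
              (1 / (s : ℝ)) * (Real.sqrt s) ^ 2 by ring, h5]
            field_simp
        _ ≤ 1 / Real.sqrt ((s : ℝ) + 1) := one_div_le_one_div_of_le h4 h6)
  have hT := T_pos n
  have h2 : cnt n (fun σ => ∃ j < k, ∃ v : ℕ → Fin n, v 0 = ⟨0, by omega⟩ ∧ v j = ⟨m, hmn⟩ ∧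
      ∀ i < j, ∃ h : v i < v (i + 1), Cand σ ⟨(v i, v (i + 1)), h⟩) ≤
      ∑ j ∈ range k, RR m X j ⟨m, hmn⟩ := by
    refine le_trans (cnt_mono ?_) ((cnt_exists (range k)
      (fun j σ => ∃ v : ℕ → Fin n, v 0 ∈ X ∧ v j = ⟨m, hmn⟩ ∧
      ∀ i < j, ∃ h : v i < v (i + 1), Cand σ ⟨(v i, v (i + 1)), h⟩)).trans ?_)
    · rintro σ ⟨j, hj, v, hv0, hvj, hv⟩
      exact ⟨j, mem_range.2 hj, v, by rw [hX, mem_singleton]; exact hv0, hvj, hv⟩
    · exact sum_le_sum fun j _ => cnt_path_le X j _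
  refine h2.trans ?_
  have h3 : ∀ j, RR m X j ⟨m, hmn⟩ ≤ T n * (8 ^ j / Real.sqrt ((m : ℝ) + 1)) := by
    intro j
    have h4 := h1 j ⟨m, hmn⟩ le_rfl
    have h5 : (1 / 8 : ℝ) ^ j * RR m X j ⟨m, hmn⟩ ≤ T n * (1 / Real.sqrt ((m : ℝ) + 1)) := h4
    have h6 : (8 : ℝ) ^ j * ((1 / 8 : ℝ) ^ j * RR m X j ⟨m, hmn⟩) = RR m X j ⟨m, hmn⟩ := by
      rw [← mul_assoc, ← mul_pow]
      norm_num
    rw [← h6]
    calc (8 : ℝ) ^ j * ((1 / 8 : ℝ) ^ j * RR m X j ⟨m, hmn⟩)
        ≤ (8 : ℝ) ^ j * (T n * (1 / Real.sqrt ((m : ℝ) + 1))) :=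
          mul_le_mul_of_nonneg_left h5 (by positivity)
      _ = _ := by ring
  calc ∑ j ∈ range k, RR m X j ⟨m, hmn⟩
      ≤ ∑ j ∈ range k, T n * (8 ^ j / Real.sqrt ((m : ℝ) + 1)) := sum_le_sum fun j _ => h3 j
    _ = T n * ((∑ j ∈ range k, (8 : ℝ) ^ j) / Real.sqrt ((m : ℝ) + 1)) := by
        rw [← mul_sum, sum_div]
    _ ≤ T n * (8 ^ k / Real.sqrt ((m : ℝ) + 1)) := by
        have : ∑ j ∈ range k, (8 : ℝ) ^ j ≤ 8 ^ k := by
          rw [geom_sum_eq (by norm_num)]
          have : (1 : ℝ) ≤ 8 ^ k := one_le_pow₀ (by norm_num)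
          rw [div_le_iff₀ (by norm_num)]
          linarith
        gcongr

lemma lower (hn : 3 ≤ n) (k : ℕ) :
    (k : ℝ) * (1 - 8 ^ k / Real.sqrt (((n / 2 : ℕ) : ℝ) + 1)) ≤ expLen n := by
  classical
  set m := n / 2 with hm
  have hT := T_pos n
  set Q : Order n → Prop := fun σ => maxLen (output σ) < k with hQ
  have hcnt : cnt n Q ≤ T n * (8 ^ k / Real.sqrt ((m : ℝ) + 1)) := by
    refine le_trans (cnt_mono ?_) (short_bound (m := m) (by omega) (by omega) k)
    intro σ hσ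
    have hσ' : maxLen (output σ) < k := hσ
    obtain ⟨j, v, hv0, hvj, hv⟩ := output_path σ (by omega) m (by omega)
    refine ⟨j, ?_, v, hv0, hvj, fun i hi => ?_⟩
    · have : j ≤ maxLen (output σ) := le_maxLen ⟨v, hv⟩
      omega
    · obtain ⟨h, he⟩ := hv i hi
      exact ⟨h, output_cand σ _ he⟩
  have hpt : ∀ σ : Order n, (k : ℝ) - k * (if Q σ then 1 else 0) ≤ (maxLen (output σ) : ℝ) := by
    intro σ
    split_ifs with h
    · simp
    · have h2 : k ≤ maxLen (output σ) := not_lt.1 h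
      have : (k : ℝ) ≤ maxLen (output σ) := by exact_mod_cast h2
      linarith
  change _ ≤ (∑ σ : Order n, (maxLen (output σ) : ℝ)) / T n
  rw [le_div_iff₀ hT]
  calc (k : ℝ) * (1 - 8 ^ k / Real.sqrt ((m : ℝ) + 1)) * T n
      = T n * k - k * (T n * (8 ^ k / Real.sqrt ((m : ℝ) + 1))) := by ring
    _ ≤ T n * k - k * cnt n Q := by gcongr
    _ = ∑ σ : Order n, ((k : ℝ) - k * (if Q σ then 1 else 0)) := by
        rw [sum_sub_distrib, sum_const, card_univ, nsmul_eq_mul, ← mul_sum, sum_boole, cnt_eq]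
        rfl
    _ ≤ ∑ σ : Order n, (maxLen (output σ) : ℝ) := sum_le_sum fun σ _ => hpt σ

/-- **Q1 is true.**  The expected maximum directed path length `E[L_n]` of the output of the
`(1,1)` edge-removal process is of order `log n`. -/
theorem result : ∃ c C : ℝ, 0 < c ∧ c ≤ C ∧ ∀ᶠ n : ℕ in atTop,
    c * Real.log n ≤ expLen n ∧ expLen n ≤ C * Real.log n := by
  refine ⟨1 / 32, 54, by norm_num, by norm_num, ?_⟩
  have hlog : Tendsto (fun n : ℕ => Real.log n) atTop atTop :=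
    Real.tendsto_log_atTop.comp tendsto_natCast_atTop_atTop
  filter_upwards [hlog.eventually_ge_atTop 16, eventually_ge_atTop 3] with n hL hn3
  have hnpos : (0 : ℝ) < n := by
    have : 0 < n := by omega
    exact_mod_cast this
  set L := Real.log n with hLdef
  constructor
  · -- lower bound
    set k := ⌊L / 8⌋₊ with hk
    have hk1 : (k : ℝ) ≤ L / 8 := Nat.floor_le (by linarith)
    have hk2 : L / 8 - 1 < k := by
      have := Nat.lt_floor_add_one (L / 8)
      linarith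
    have h1 := lower hn3 k
    have h8 : (8 : ℝ) ^ k ≤ Real.exp (3 * L / 8) := by
      have h8' : (8 : ℝ) ≤ Real.exp 3 := by
        have := Real.exp_one_gt_d9
        calc (8 : ℝ) ≤ 2.7182818283 ^ 3 := by norm_num
          _ ≤ (Real.exp 1) ^ 3 := by gcongr
          _ = Real.exp 3 := by rw [← Real.exp_nat_mul]; norm_num
      calc (8 : ℝ) ^ k ≤ (Real.exp 3) ^ k := by gcongr
        _ = Real.exp (k * 3) := by rw [← Real.exp_nat_mul]
        _ ≤ Real.exp (3 * L / 8) := by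
            apply Real.exp_le_exp.2
            linarith
    have hsq : Real.exp (L / 2 - 1) ≤ Real.sqrt (((n / 2 : ℕ) : ℝ) + 1) := by
      have h2 : (n : ℝ) / 2 ≤ ((n / 2 : ℕ) : ℝ) + 1 := by
        have : n ≤ 2 * (n / 2 + 1) := by omega
        have h3 : (n : ℝ) ≤ 2 * (((n / 2 : ℕ) : ℝ) + 1) := by exact_mod_cast this
        linarith
      refine le_trans ?_ (Real.sqrt_le_sqrt h2)
      apply Real.le_sqrt_of_sq_le
      rw [← Real.exp_nat_mul]
      have h4 : Real.exp (((2 : ℕ) : ℝ) * (L / 2 - 1)) = n * Real.exp (-2) := by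
        rw [show ((2 : ℕ) : ℝ) * (L / 2 - 1) = L + (-2) by push_cast; ring, Real.exp_add, hLdef,
          Real.exp_log hnpos]
      rw [h4]
      have h5 : Real.exp (-2) ≤ 1 / 2 := by
        rw [Real.exp_neg, inv_eq_one_div]
        apply one_div_le_one_div_of_le (by norm_num)
        have := Real.add_one_le_exp (2 : ℝ)
        linarith
      nlinarith
    have hratio : (8 : ℝ) ^ k / Real.sqrt (((n / 2 : ℕ) : ℝ) + 1) ≤ 1 / 2 := by
      calc (8 : ℝ) ^ k / Real.sqrt (((n / 2 : ℕ) : ℝ) + 1)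
          ≤ Real.exp (3 * L / 8) / Real.exp (L / 2 - 1) := by gcongr
        _ = Real.exp (-(L / 8 - 1)) := by
            rw [← Real.exp_sub]
            congr 1
            ring
        _ ≤ Real.exp (-1) := by
            apply Real.exp_le_exp.2
            linarith
        _ ≤ 1 / 2 := by
            rw [Real.exp_neg, inv_eq_one_div]
            apply one_div_le_one_div_of_le (by norm_num)
            have := Real.add_one_le_exp (1 : ℝ)
            linarith
    have hk0 : (0 : ℝ) ≤ k := Nat.cast_nonneg k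
    nlinarith
  · -- upper bound
    set k := ⌈10 * L⌉₊ with hk
    have hk1 : 10 * L ≤ k := Nat.le_ceil _
    have hk2 : (k : ℝ) < 10 * L + 1 := Nat.ceil_lt_add_one (by linarith)
    have h1 := upper hn3 k
    have h2 : (n : ℝ) ^ 5 ≤ 2 ^ k := by
      have h3 : Real.exp (1 / 2) ≤ 2 := by
        have := Real.log_two_gt_d9
        calc Real.exp (1 / 2) ≤ Real.exp (Real.log 2) := Real.exp_le_exp.2 (by linarith)
          _ = 2 := Real.exp_log (by norm_num)
      calc (n : ℝ) ^ 5 = Real.exp (5 * L) := by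
            rw [show (5 : ℝ) = ((5 : ℕ) : ℝ) by norm_num, Real.exp_nat_mul, hLdef,
              Real.exp_log hnpos]
        _ ≤ Real.exp (k * (1 / 2)) := by
            apply Real.exp_le_exp.2
            linarith
        _ = (Real.exp (1 / 2)) ^ k := by rw [Real.exp_nat_mul]
        _ ≤ 2 ^ k := by gcongr
    have h4 : 32 * (n : ℝ) ^ 5 / 2 ^ k ≤ 32 := by
      rw [div_le_iff₀ (by positivity)]
      linarith
    linarith

end Pool.Agent.Results.MP_25bd62_pr.LogLength
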